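import Mathlib

set_option autoImplicit false

namespace Pool.Agent.Results.MP_e9025c_co.Cyclic

open Finset
open scoped Classical

/- A binary word with wild cards of length `L` is `w 0, …, w (L - 1)`; `none` is the diamond. -/

/-- `u` agrees with the letters of `w` in the block starting at `i` -/
def Agrees {n : ℕ} (w : ℕ → Option Bool) (i : ℕ) (u : Fin n → Bool) : Prop :=
  ∀ (j : Fin n) (b : Bool), w (i + j) = some b → u j = b

def Universal (n L : ℕ) (w : ℕ → Option Bool) : Prop :=
  ∀ u : Fin n → Bool, ∃! i, i + n ≤ L ∧ Agrees w i u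

def Trivial (n L : ℕ) (w : ℕ → Option Bool) : Prop :=
  (L = n ∧ ∀ i < L, w i = none) ∨ ∀ i < L, w i ≠ none

def Diamondicity (n L : ℕ) (w : ℕ → Option Bool) : Prop :=
  ∃ d, ∀ i, i + n ≤ L → ((range n).filter (fun j => w (i + j) = none)).card = d

def IsCyclic (n L : ℕ) (w : ℕ → Option Bool) : Prop :=
  2 * (n - 1) ≤ L ∧ ∀ j < n - 1, w j = w (L - (n - 1) + j)

theorem one {n N : ℕ} {w : ℕ → Option Bool} (h : Universal (n + 1) (N + n) w) (u : Fin (n + 1) → Bool) :
    ∑ i ∈ range N, (if Agrees w i u then 1 else 0 : ℕ) = 1 := by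
  obtain ⟨i, ⟨h1, h2⟩, h3⟩ := h u
  rw [sum_eq_single_of_mem i (by simp; omega), if_pos h2]
  intro j hj hne
  rw [if_neg]
  exact fun e => hne (h3 j ⟨by simp at hj; omega, e⟩)

theorem two (p : Prop) (o : Option Bool) :
    ∑ a : Bool, (if p ∧ ∀ b, o = some b → a = b then 1 else 0 : ℕ) =
      if p then (if o = none then 2 else 1) else 0 := by
  by_cases hp : p <;> rcases o with _ | _ | _ <;> simp [hp]

theorem det {m : ℕ} {w : ℕ → Option Bool} {i k : ℕ}
    (h : ∀ x : Fin m → Bool, Agrees w i x → Agrees w k x) (j : Fin m) (b : Bool)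
    (hb : w (k + j) = some b) : w (i + j) = some b := by
  by_contra hn
  have := h (fun t => if t = j then !b else (w (i + t)).getD false) (fun t c hc => by
    by_cases e : t = j
    · subst e
      rw [hc] at hn
      cases b <;> cases c <;> simp_all
    · simp [e, hc]) j b hb
  simp at this

theorem pseudo {m M : ℕ} {w : ℕ → Option Bool} (h : Universal (m + 1) (M + 1 + m) w)
    (hd : Diamondicity (m + 1) (M + 1 + m) w) (j : ℕ) (hj : j < m) : w j = w (M + 1 + j) := by
  obtain ⟨d, hd⟩ := hd
  have per : ∀ i < M, (w (i + 1 + m) = none ↔ w i = none) := by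
    intro i hi
    have h1 := hd i (by omega)
    have h2 := hd (i + 1) (by omega)
    rw [card_filter, sum_range_succ'] at h1
    rw [card_filter, sum_range_succ] at h2
    simp only [← add_assoc, add_right_comm i _ 1, add_zero] at h1
    by_cases a : w (i + 1 + m) = none <;> by_cases b : w i = none <;> simp [a, b] at h1 h2 ⊢ <;> omega
  have key : ∀ x : Fin m → Bool, Agrees w 0 x ↔ Agrees w (M + 1) x := by
    intro x
    have e1 : ∑ i ∈ range (M + 1), (if Agrees w i x then (if w (i + m) = none then 2 else 1) else 0)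
        = 2 := by
      simp only [← two]
      rw [sum_comm]
      refine (sum_congr rfl (fun a _ => (sum_congr rfl (fun i _ => ?_)).trans
        (one h (Fin.snoc (α := fun _ => Bool) x a)))).trans (by simp)
      simp [Agrees, Fin.forall_fin_succ']
    have e2 : ∑ i ∈ range (M + 1), (if Agrees w (i + 1) x then (if w i = none then 2 else 1) else 0)
        = 2 := by
      simp only [← two]
      rw [sum_comm]
      refine (sum_congr rfl (fun a _ => (sum_congr rfl (fun i _ => ?_)).trans
        (one h (Fin.cons (α := fun _ => Bool) a x)))).trans (by simp)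
      simp [Agrees, Fin.forall_fin_succ, and_comm, add_assoc, add_comm 1]
    rw [sum_range_succ'] at e1
    rw [sum_range_succ] at e2
    rw [sum_congr rfl (fun i hi => by rw [if_congr Iff.rfl (if_congr (per i (mem_range.1 hi)) rfl rfl) rfl])] at e1
    by_cases a : Agrees w 0 x <;> by_cases b : Agrees w (M + 1) x <;>
      simp only [a, b, if_true, if_false] at e1 e2 ⊢ <;> split_ifs at e1 e2 <;> omega
  have a := det (fun x => (key x).1) ⟨j, hj⟩
  have b := det (fun x => (key x).2) ⟨j, hj⟩
  simp only [zero_add] at a b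
  rcases e : w j with _ | c
  · rcases e' : w (M + 1 + j) with _ | c
    · rfl
    · rw [a c e'] at e; exact e.symm
  · exact (b c e).symm

theorem pow_lt (k : ℕ) (hk : 0 < k) : k * k - k + 1 < 2 ^ k := by
  have : ∀ k : ℕ, (k + 1) * (k + 1) + 1 < 2 ^ (k + 1) + (k + 1) ∧ 2 * k < 2 ^ (k + 1) := by
    intro k
    induction k with
    | zero => simp
    | succ k ih =>
      have := Nat.lt_two_pow_self (n := k + 1)
      rw [pow_succ 2 (k + 1)]
      refine ⟨?_, by omega⟩
      rcases Nat.lt_or_ge k 2 with h | h
      · interval_cases k <;> norm_num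
      · have h2 : 2 * k + 2 ≤ 2 ^ (k + 1) := by
          have := Nat.lt_two_pow_self (n := k); rw [pow_succ]; omega
        nlinarith [ih.1]
  obtain ⟨k, rfl⟩ : ∃ j, k = j + 1 := ⟨k - 1, by omega⟩
  have h1 := (this k).1
  have h2 : k + 1 ≤ (k + 1) * (k + 1) := Nat.le_mul_self _
  omega

theorem result (n L : ℕ) (w : ℕ → Option Bool) (hn : 1 ≤ n) (h : Universal n L w)
    (ht : ¬ Trivial n L w) (hd : Diamondicity n L w) : IsCyclic n L w := by
  obtain ⟨m, rfl⟩ : ∃ m, n = m + 1 := ⟨n - 1, by omega⟩
  obtain ⟨M, rfl⟩ : ∃ M, L = M + 1 + m := by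
    obtain ⟨i, ⟨h1, -⟩, -⟩ := h (fun _ => true)
    exact ⟨L - m - 1, by omega⟩
  have hp := pseudo h hd
  refine ⟨?_, fun j hj => by simpa using hp j (by omega)⟩
  by_contra hlt
  obtain ⟨d, hd⟩ := hd
  have per : ∀ i, i < M + 1 + m → w i = w (i % (M + 1)) := by
    intro i
    induction i using Nat.strong_induction_on with
    | _ i ih =>
      intro hi
      rcases Nat.lt_or_ge i (M + 1) with h1 | h1
      · rw [Nat.mod_eq_of_lt h1]
      · obtain ⟨j, rfl⟩ : ∃ j, i = M + 1 + j := ⟨i - (M + 1), by omega⟩
        rw [← hp j (by omega), Nat.add_mod_left, ← ih j (by omega) (by omega)]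
  have hc : 2 ^ (m + 1) = (M + 1) * 2 ^ d := by
    have : ∑ u : Fin (m + 1) → Bool, ∑ i ∈ range (M + 1), (if Agrees w i u then 1 else 0 : ℕ) =
        2 ^ (m + 1) := by simp [one h]
    rw [← this, sum_comm]
    refine (sum_congr rfl (fun i hi => ?_)).trans (by rw [sum_const, card_range]; rfl)
    rw [← card_filter, ← hd i (by simp at hi; omega)]
    have : univ.filter (fun u : Fin (m + 1) → Bool => Agrees w i u) = Fintype.piFinset
        (fun j : Fin (m + 1) => univ.filter (fun a : Bool => ∀ b, w (i + j) = some b → a = b)) := by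
      ext u; simp [Agrees]
    rw [this, Fintype.card_piFinset, card_filter, ← prod_pow_eq_pow_sum,
      ← Fin.prod_univ_eq_prod_range (fun j => 2 ^ (if w (i + j) = none then 1 else 0))]
    refine prod_congr rfl (fun j _ => ?_)
    rcases w (i + j) with _ | _ | _ <;> simp [filter_eq']
  let S := (range (M + 1)).filter (fun j => w j ≠ none)
  have h0 := hd 0 (by omega)
  simp only [zero_add] at h0
  have hk := card_filter_add_card_filter_not (s := range (m + 1)) (fun j => w j = none)
  rw [h0, card_range] at hk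
  set k := ((range (m + 1)).filter (fun j => ¬ w j = none)).card with hkdef
  have hS : S.card ≤ k := card_le_card (fun j hj => by
    simp only [S, mem_filter, mem_range] at hj ⊢; exact ⟨by omega, hj.2⟩)
  have hM : M ≤ S.card * S.card - S.card := by
    rw [← offDiag_card]
    refine le_trans ?_ (card_image_le (f := fun p => (p.2 + (M + 1) - p.1) % (M + 1)))
    refine le_trans (by simp) (card_le_card (s := Icc 1 M) (fun s hs => ?_))
    rw [mem_Icc] at hs
    by_contra hns
    have : ∀ j < m + 1, ∀ a b, w j = some a → w (s + j) = some b → a = b := by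
      intro j hj a b ha hb
      by_contra hab
      apply hns
      have l1 : j % (M + 1) < M + 1 := Nat.mod_lt j (Nat.succ_pos M)
      have l2 : (s + j) % (M + 1) < M + 1 := Nat.mod_lt (s + j) (Nat.succ_pos M)
      rw [per _ (by omega)] at ha hb
      refine mem_image.2 ⟨(j % (M + 1), (s + j) % (M + 1)), mem_offDiag.2 ⟨by simp [S, ha]; omega,
        by simp [S, hb]; omega, fun e => hab ?_⟩, ?_⟩
      · simp only at e; rw [e, hb] at ha; exact (Option.some.inj ha).symm
      · simp only
        rw [Nat.add_mod s j, Nat.mod_eq_of_lt (show s < M + 1 by omega)]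
        generalize j % (M + 1) = r at *
        rcases Nat.lt_or_ge (s + r) (M + 1) with h1 | h1
        · rw [Nat.mod_eq_of_lt h1, show s + r + (M + 1) - r = s + (M + 1) by omega, Nat.add_mod_right,
            Nat.mod_eq_of_lt (by omega)]
        · rw [Nat.mod_eq_sub_mod h1, Nat.mod_eq_of_lt (show s + r - (M + 1) < M + 1 by omega),
            show s + r - (M + 1) + (M + 1) - r = s by omega, Nat.mod_eq_of_lt (by omega)]
    obtain ⟨i, -, hi⟩ := h (fun j => (w j).getD ((w (s + j)).getD false))
    have e1 := hi 0 ⟨by omega, fun j b hb => by rw [zero_add] at hb; simp [hb]⟩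
    have e2 := hi s ⟨by omega, fun j b hb => by
      rcases e : w j with _ | a
      · simp [hb, e]
      · simpa [e] using this j j.2 a b e hb⟩
    omega
  have hN : M + 1 = 2 ^ k := by
    rw [← hk, pow_add, mul_comm] at hc
    exact (Nat.eq_of_mul_eq_mul_right (by positivity) hc).symm
  have mono : S.card * S.card - S.card ≤ k * k - k := by
    rw [← Nat.mul_sub_one, ← Nat.mul_sub_one]
    exact Nat.mul_le_mul hS (by omega)
  rcases Nat.eq_zero_or_pos k with h1 | h1
  · have hM0 : M = 0 := by rw [h1] at hN; omega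
    refine ht (Or.inl ⟨by omega, fun i hi => ?_⟩)
    by_contra hi'
    have := card_eq_zero.1 (hkdef.symm.trans h1)
    exact filter_eq_empty_iff.1 this (mem_range.2 (by omega)) hi'
  · have := pow_lt k h1
    omega

end Pool.Agent.Results.MP_e9025c_co.Cyclic
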